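import Mathlib

namespace Pool.Agent.H.MP_1c7d4c_an
open Polynomial

def addL : List ℤ → List ℤ → List ℤ
  | [], l => l
  | a :: l, [] => a :: l
  | a :: l, b :: m => (a + b) :: addL l m

def shiftL (s : ℤ) : List ℤ → List ℤ
  | [] => []
  | c :: l => addL (c :: shiftL s l) ((shiftL s l).map (fun t => s * t))

noncomputable def toP : List ℤ → ℝ[X]
  | [] => 0
  | c :: l => C (c : ℝ) + X * toP l

lemma toP_add : ∀ a b : List ℤ, toP (addL a b) = toP a + toP b
  | [], l => by simp [addL, toP]
  | a :: l, [] => by simp [addL, toP]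
  | a :: l, b :: m => by
      simp only [addL, toP, toP_add l m, Int.cast_add, C_add]; ring

lemma toP_smul (s : ℤ) : ∀ l : List ℤ, toP (l.map (fun t => s * t)) = C (s : ℝ) * toP l
  | [] => by simp [toP]
  | a :: l => by
      simp only [List.map_cons, toP, toP_smul s l, Int.cast_mul, C_mul]; ring

lemma taylor_cons (s : ℝ) (c : ℤ) (l : List ℤ) :
    taylor s (toP (c :: l)) = C (c : ℝ) + X * taylor s (toP l) + C s * taylor s (toP l) := by
  simp only [toP, map_add, taylor_C, taylor_mul, taylor_X]; ring

lemma toP_shift (s : ℤ) : ∀ l : List ℤ, toP (shiftL s l) = taylor (s : ℝ) (toP l)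
  | [] => by simp [shiftL, toP]
  | c :: l => by
      rw [taylor_cons, shiftL, toP_add, toP_smul, toP, toP_shift s l]

lemma coeff_bound (s H : ℝ) (hs : |s| ≤ H) : ∀ (l : List ℤ) (k : ℕ),
    |(taylor s (toP l)).coeff k| ≤ (taylor H (toP (l.map (fun t => |t|)))).coeff k
  | [], k => by simp [toP]
  | c :: l, k => by
      have hH : 0 ≤ H := le_trans (abs_nonneg _) hs
      have key : ∀ j, |s * (taylor s (toP l)).coeff j| ≤
          H * (taylor H (toP (l.map (fun t => |t|)))).coeff j := fun j => by
        rw [abs_mul]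
        exact mul_le_mul hs (coeff_bound s H hs l j) (abs_nonneg _) hH
      rw [List.map_cons, taylor_cons, taylor_cons]
      rcases k with _ | k
      · simp only [coeff_add, coeff_C_zero, coeff_X_mul_zero, add_zero, coeff_C_mul, Int.cast_abs]
        exact le_trans (abs_add_le _ _) (add_le_add le_rfl (key 0))
      · simp only [coeff_add, coeff_C_succ, coeff_X_mul, zero_add, coeff_C_mul]
        exact le_trans (abs_add_le _ _) (add_le_add (coeff_bound s H hs l k) (key (k + 1)))

def leL : List ℤ → List ℤ → Bool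
  | [], [] => true
  | a :: l, b :: m => decide (a ≤ b) && leL l m
  | _, _ => false

lemma leL_spec : ∀ a b : List ℤ, leL a b = true → ∀ k, (toP a).coeff k ≤ (toP b).coeff k
  | [], [], _, k => le_rfl
  | [], _ :: _, h, _ => by simp [leL] at h
  | _ :: _, [], h, _ => by simp [leL] at h
  | a :: l, b :: m, h, k => by
      simp only [leL, Bool.and_eq_true, decide_eq_true_eq] at h
      rcases k with _ | k
      · simp only [toP, coeff_add, coeff_C_zero, coeff_X_mul_zero, add_zero]
        exact_mod_cast h.1
      · simp only [toP, coeff_add, coeff_C_succ, coeff_X_mul, zero_add]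
        exact leL_spec l m h.2 k

noncomputable def forceN (n : ℕ) (f : ℕ → Bool) : Bool := Nat.rec (f 0) (fun k _ => f (Nat.succ k)) n

lemma forceN_eq (n : ℕ) (f : ℕ → Bool) : forceN n f = f n := by cases n <;> rfl

noncomputable def forceI (z : ℤ) (f : ℤ → Bool) : Bool :=
  Int.rec (fun n => forceN n (fun m => f (Int.ofNat m)))
    (fun n => forceN n (fun m => f (Int.negSucc m))) z

lemma forceI_eq (z : ℤ) (f : ℤ → Bool) : forceI z f = f z := by
  cases z <;> simp only [forceI, forceN_eq]

noncomputable def stepK (s : ℤ) (m : List ℤ) : ℤ → (List ℤ → Bool) → Bool :=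
  List.rec (fun c f => f [c])
    (fun a _ ih c f => forceI (Int.add c (Int.mul s a)) (fun v => ih a (fun r => f (v :: r)))) m

lemma stepK_eq (s : ℤ) : ∀ (m : List ℤ) (c : ℤ) (f : List ℤ → Bool),
    stepK s m c f = f (addL (c :: m) (m.map (fun t => s * t)))
  | [], _, _ => rfl
  | a :: m, c, f => by
      have h : stepK s (a :: m) c f = forceI (Int.add c (Int.mul s a))
          (fun v => stepK s m a (fun r => f (v :: r))) := rfl
      rw [h, forceI_eq, stepK_eq s m]; rfl

noncomputable def shiftK (s : ℤ) (l : List ℤ) : (List ℤ → Bool) → Bool :=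
  List.rec (fun f => f []) (fun c _ ih f => ih (fun m => stepK s m c f)) l

lemma shiftK_eq (s : ℤ) : ∀ (l : List ℤ) (f : List ℤ → Bool), shiftK s l f = f (shiftL s l)
  | [], _ => rfl
  | c :: l, f => by
      have h : shiftK s (c :: l) f = shiftK s l (fun m => stepK s m c f) := rfl
      rw [h, shiftK_eq s l, stepK_eq, shiftL]

noncomputable def chk (E : List ℤ) (H : ℤ) : ℕ → List ℤ → Bool
  | 0, _ => true
  | n + 1, c => shiftK H (c.map (fun t => |t|)) (fun d => leL d E) &&
      shiftK (2 * H) c (fun c' => chk E H n c')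

lemma chk_spec (E : List ℤ) (H : ℤ) : ∀ (n : ℕ) (c : List ℤ), chk E H n c = true →
    ∀ s : ℝ, -(H : ℝ) ≤ s → s < (2 * (n : ℝ) - 1) * H → ∀ k,
      |(taylor s (toP c)).coeff k| ≤ (toP E).coeff k
  | 0, c, _, s, h1, h2, k => by
      exfalso; simp at h2; linarith
  | n + 1, c, h, s, h1, h2, k => by
      simp only [chk, Bool.and_eq_true, shiftK_eq] at h
      by_cases hs : s ≤ H
      · have := coeff_bound s H (abs_le.2 ⟨h1, hs⟩) c k
        refine le_trans this ?_
        rw [← toP_shift]
        exact leL_spec _ _ h.1 k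
      · push Not at hs
        have := chk_spec E H n _ h.2 (s - 2 * H) (by linarith) (by push_cast at h2; linarith) k
        rw [toP_shift, taylor_taylor] at this
        have e : s - 2 * (H : ℝ) + ((2 * H : ℤ) : ℝ) = s := by push_cast; ring
        rwa [e] at this

/-- coefficient list of the product of the linear factors -/
noncomputable def prodK : List ℤ → (List ℤ → Bool) → Bool
  | [], f => f [1]
  | a :: l, f => prodK l (fun m => stepK (-a) m 0 f)

def prodL : List ℤ → List ℤ
  | [] => [1]
  | a :: l => addL (0 :: prodL l) ((prodL l).map (fun t => (-a) * t))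

lemma prodK_eq : ∀ (l : List ℤ) (f : List ℤ → Bool), prodK l f = f (prodL l)
  | [], _ => rfl
  | c :: l, f => by rw [prodK, prodK_eq l, stepK_eq, prodL]

lemma toP_prod : ∀ l : List ℤ, toP (prodL l) = (l.map (fun a : ℤ => X - C (a : ℝ))).prod
  | [] => by simp [prodL, toP]
  | a :: l => by
      rw [prodL, toP_add, toP_smul, toP, toP_prod l]
      simp only [Int.cast_zero, C_0, zero_add, Int.cast_neg, C_neg, List.map_cons, List.prod_cons]
      ring

noncomputable def full (z : List ℤ) (N H u : ℤ) (n : ℕ) : Bool :=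
  prodK z (fun P => shiftK N P (fun E => shiftK u P (fun c => chk E H n c)))

lemma full_spec (z : List ℤ) (N H u : ℤ) (n : ℕ)
    (h : full z N H u n = true) (t : ℝ) (h1 : (u : ℝ) - H ≤ t)
    (h2 : t < u + (2 * (n : ℝ) - 1) * H) (k : ℕ) :
    |(taylor t (z.map (fun a : ℤ => X - C (a : ℝ))).prod).coeff k| ≤
      (taylor (N : ℝ) (z.map (fun a : ℤ => X - C (a : ℝ))).prod).coeff k := by
  simp only [full, prodK_eq, shiftK_eq] at h
  have := chk_spec _ H n _ h (t - u) (by linarith) (by linarith) k
  rw [toP_shift, toP_shift, taylor_taylor, toP_prod] at this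
  have e : t - (u : ℝ) + (u : ℝ) = t := by ring
  rwa [e] at this

lemma coeff_taylor (p : ℝ[X]) (t : ℝ) (k : ℕ) :
    eval t (derivative^[k] p) = (k.factorial : ℝ) * (taylor t p).coeff k := by
  rw [taylor_coeff, ← factorial_smul_hasseDeriv]
  simp

lemma iter_comp (p : ℝ[X]) (a : ℝ) : ∀ k : ℕ,
    derivative^[k] (p.comp (C a * X)) = C (a ^ k) * (derivative^[k] p).comp (C a * X)
  | 0 => by simp
  | k + 1 => by
      rw [Function.iterate_succ_apply', Function.iterate_succ_apply', iter_comp p a k,
        derivative_C_mul, derivative_comp]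
      simp only [derivative_C_mul, derivative_X, mul_one, pow_succ, C_mul]
      ring

def zs : List ℤ :=
  [-978, -977, -976, -975, -974, -973, -972, -971, -970, -969, -968, -967, -966, -965, -964, -963,
   -962, -961, -363, -210, -69, 69, 210, 363, 961, 962, 963, 964, 965, 966, 967, 968, 969, 970,
   971, 972, 973, 974, 975, 976, 977, 978]

end Pool.Agent.H.MP_1c7d4c_an
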