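import Pool.Agent.H.MP_1c7d4c_an.A

namespace Pool.Agent.H.MP_1c7d4c_an

theorem ok1 : full zs 1200 10 10 20 = true := by decide +kernel

theorem ok2 : full zs 1200 10 410 20 = true := by decide +kernel

theorem ok3 : full zs 1200 10 810 20 = true := by decide +kernel

end Pool.Agent.H.MP_1c7d4c_an
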