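import Pool.Agent.H.MP_1c7d4c_an.B

namespace Pool.Agent.H.MP_1c7d4c_an
open Polynomial

def zf (j : Fin 42) : ℤ := zs.getD j 0

lemma zs_eq : zs = List.ofFn zf := by decide +kernel

lemma zf_mono : ∀ i j : Fin 42, i < j → zf i < zf j := by decide +kernel

lemma zf_bd : ∀ j : Fin 42, -1200 ≤ zf j ∧ zf j ≤ 1200 := by decide +kernel

lemma zf_rev : ∀ j : Fin 42, zf j = - zf (Fin.rev j) := by decide +kernel

lemma zf_viol : ∏ j : Fin 42, ((1200 - zf j) ^ 2 + 63 ^ 2) <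
    ∏ j : Fin 42, ((0 - zf j) ^ 2 + 63 ^ 2) := by decide +kernel

noncomputable def xf (j : Fin 42) : ℝ := (zf j : ℝ) / 1200

noncomputable def PP : ℝ[X] := ∏ j : Fin 42, (X - C (zf j : ℝ))

noncomputable def QQ : ℝ[X] := ∏ j : Fin 42, (X - C (xf j))

lemma PP_eq : (zs.map (fun a : ℤ => X - C (a : ℝ))).prod = PP := by
  rw [zs_eq, List.map_ofFn, List.prod_ofFn]; rfl

lemma PP_bound (t : ℝ) (h0 : 0 ≤ t) (h1 : t < 1200) (k : ℕ) :
    |eval t (derivative^[k] PP)| ≤ eval 1200 (derivative^[k] PP) := by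
  have key : |(taylor t PP).coeff k| ≤ (taylor (1200 : ℝ) PP).coeff k := by
    have e : ((1200 : ℤ) : ℝ) = 1200 := by norm_num
    rw [← PP_eq, ← e]
    by_cases a : t < 400
    · exact full_spec _ _ _ _ _ ok1 t (by push_cast; linarith) (by push_cast; linarith) k
    by_cases b : t < 800
    · exact full_spec _ _ _ _ _ ok2 t (by push_cast; linarith) (by push_cast; linarith) k
    · exact full_spec _ _ _ _ _ ok3 t (by push_cast; linarith) (by push_cast; linarith) k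
  rw [coeff_taylor, coeff_taylor, abs_mul, Nat.abs_cast]
  exact mul_le_mul_of_nonneg_left key (Nat.cast_nonneg _)

lemma comp_pos : PP.comp (C (1200 : ℝ) * X) = C ((1200 : ℝ) ^ 42) * QQ := by
  have h : ∀ j : Fin 42, (X - C (zf j : ℝ)).comp (C (1200 : ℝ) * X) =
      C (1200 : ℝ) * (X - C (xf j)) := fun j => by
    rw [sub_comp, X_comp, C_comp, mul_sub, ← C_mul]
    congr 2
    unfold xf; ring
  rw [PP, QQ, Polynomial.prod_comp, Finset.prod_congr rfl (fun j _ => h j),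
    Finset.prod_mul_distrib, Finset.prod_const, Finset.card_univ, Fintype.card_fin, C_pow]

lemma comp_neg : PP.comp (C (-1200 : ℝ) * X) = C ((1200 : ℝ) ^ 42) * QQ := by
  have h : ∀ j : Fin 42, (X - C (zf j : ℝ)).comp (C (-1200 : ℝ) * X) =
      C (-1200 : ℝ) * (X - C (xf (Fin.revPerm j))) := fun j => by
    rw [sub_comp, X_comp, C_comp, mul_sub, ← C_mul]
    congr 2
    unfold xf
    rw [zf_rev j]; simp only [Fin.revPerm_apply]; push_cast; ring
  rw [PP, QQ, Polynomial.prod_comp, Finset.prod_congr rfl (fun j _ => h j),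
    Finset.prod_mul_distrib, Finset.prod_const, Finset.card_univ, Fintype.card_fin,
    Equiv.prod_comp Fin.revPerm (fun j => X - C (xf j)), ← C_pow]
  congr 2
  norm_num

lemma rel (a : ℝ) (h : PP.comp (C a * X) = C ((1200 : ℝ) ^ 42) * QQ) (k : ℕ) (t : ℝ) :
    (1200 : ℝ) ^ 42 * eval t (derivative^[k] QQ) = a ^ k * eval (a * t) (derivative^[k] PP) := by
  have := congrArg (eval t) (iter_comp PP a k)
  rw [h, iterate_derivative_C_mul] at this
  simpa [eval_comp] using this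

lemma QQ_bound (k : ℕ) (t : ℝ) (h0 : -1 < t) (h1 : t < 1) :
    |eval t (derivative^[k] QQ)| ≤ eval 1 (derivative^[k] QQ) := by
  have hp : (0 : ℝ) < 1200 ^ 42 := by positivity
  have hk : (0 : ℝ) ≤ 1200 ^ k := by positivity
  refine le_of_mul_le_mul_left ?_ hp
  rw [rel 1200 comp_pos k 1, mul_one, ← abs_of_pos hp, ← abs_mul]
  by_cases a : 0 ≤ t
  · rw [rel 1200 comp_pos k t, abs_mul, abs_of_nonneg hk]
    exact mul_le_mul_of_nonneg_left (PP_bound _ (by linarith) (by linarith) k) hk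
  · rw [rel (-1200) comp_neg k t, abs_mul, abs_pow, abs_neg, abs_of_pos (by norm_num : (0 : ℝ) < 1200)]
    exact mul_le_mul_of_nonneg_left (PP_bound _ (by linarith) (by linarith) k) hk

lemma norm_sq (t y : ℝ) : ‖aeval ((t : ℂ) + (y : ℂ) * Complex.I) QQ‖ ^ 2 =
    ∏ j : Fin 42, ((t - xf j) ^ 2 + y ^ 2) := by
  rw [QQ, map_prod, norm_prod, ← Finset.prod_pow]
  refine Finset.prod_congr rfl (fun j _ => ?_)
  rw [Complex.sq_norm, Complex.normSq_apply]
  simp
  ring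

lemma viol : ‖aeval (((1 : ℝ) : ℂ) + ((63 / 1200 : ℝ) : ℂ) * Complex.I) QQ‖ <
    ‖aeval (((0 : ℝ) : ℂ) + ((63 / 1200 : ℝ) : ℂ) * Complex.I) QQ‖ := by
  refine lt_of_pow_lt_pow_left₀ 2 (norm_nonneg _) ?_
  rw [norm_sq, norm_sq]
  have h : ∀ (s : ℤ), ∏ j : Fin 42, (((s : ℝ) / 1200 - xf j) ^ 2 + (63 / 1200 : ℝ) ^ 2) =
      ((∏ j : Fin 42, ((s - zf j) ^ 2 + 63 ^ 2) : ℤ) : ℝ) * ∏ _j : Fin 42, (1 / 1200 ^ 2 : ℝ) := by
    intro s
    push_cast
    rw [← Finset.prod_mul_distrib]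
    refine Finset.prod_congr rfl (fun j _ => ?_)
    unfold xf; ring
  have h1 := h 1200
  have h0 := h 0
  have e1 : ((1200 : ℤ) : ℝ) / 1200 = 1 := by norm_num
  have e0 : ((0 : ℤ) : ℝ) / 1200 = 0 := by norm_num
  rw [e1] at h1
  rw [e0] at h0
  rw [h1, h0]
  refine mul_lt_mul_of_pos_right ?_ (Finset.prod_pos (fun _ _ => by positivity))
  exact Int.cast_lt.2 zf_viol

end Pool.Agent.H.MP_1c7d4c_an
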